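import Pool.Agent.H92.NLF2

namespace Pool.Agent.Results.MP_1dbcb3_an.Counter
open MeasureTheory Set

/-- The functional `F_ω(u,(a,b))`, with values in `[0,+∞]`. -/
noncomputable def F (ω u : ℝ → ℝ) (a b : ℝ) : ENNReal :=
  ∫⁻ p in Ioo a b ×ˢ Ioo a b,
    ENNReal.ofReal (ω (|u p.2 - u p.1| / |p.2 - p.1|) / |p.2 - p.1|)

theorem result : ∃ ω : ℝ → ℝ, Continuous ω ∧ (∀ μ, 0 ≤ ω μ) ∧ (∀ μ, 0 < μ → 0 < ω μ) ∧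
    ∫⁻ μ in Ioi (1 : ℝ), ENNReal.ofReal (ω μ / μ ^ 2) = ⊤ ∧
    ∃ u : ℝ → ℝ, Measurable u ∧
      (¬ ∃ c, ∀ᵐ x ∂(volume.restrict (Ioo (0 : ℝ) 1)), u x = c) ∧
      (∀ α : ℝ, 0 < α → α < 1 → ∫⁻ x in Ioo (0 : ℝ) 1, ENNReal.ofReal (|u x| ^ α) < ⊤) ∧
      F ω u 0 1 < ⊤ :=
  ⟨H92.NLF.ω, H92.NLF.ω_cont, H92.NLF.ω_nonneg, fun _ => H92.NLF.ω_pos, H92.NLF.ω_div,
    H92.NLF.u, H92.NLF.u_meas, H92.NLF.nonconst, fun _ => H92.NLF.Lα, H92.NLF.F_fin⟩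

end Pool.Agent.Results.MP_1dbcb3_an.Counter
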